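import Mathlib

namespace Pool.Agent.Results.MP_e761a2_pr.Stars

open Filter Topology SimpleGraph

/-- `H` is a minor of `G`: disjoint connected branch sets, joined along the edges of `H`. -/
def IsMinor {V W : Type} (H : SimpleGraph W) (G : SimpleGraph V) : Prop :=
  ∃ B : W → Set V, (∀ x, (G.induce (B x)).Connected) ∧ (∀ x y, x ≠ y → Disjoint (B x) (B y)) ∧
    ∀ x y, H.Adj x y → ∃ u ∈ B x, ∃ v ∈ B y, G.Adj u v

/-- finite rooted graphs -/
abbrev RG : Type := Σ m : ℕ, SimpleGraph (Fin m) × Fin m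

/-- rooted isomorphism -/
instance iso : Setoid RG where
  r A B := ∃ f : A.2.1 ≃g B.2.1, f A.2.2 = B.2.2
  iseqv := ⟨fun _ => ⟨.refl, rfl⟩, fun ⟨f, h⟩ => ⟨f.symm, by rw [← h]; simp⟩,
    fun ⟨f, h⟩ ⟨g, h'⟩ => ⟨f.trans g, by simp [h, h']⟩⟩

/-- rooted connected graphs on `Fin n` with no minor in `S` -/
def Ex (S : Set (Σ m : ℕ, SimpleGraph (Fin m))) (n : ℕ) : Set (SimpleGraph (Fin n) × Fin n) :=
  {A | A.1.Connected ∧ ∀ H ∈ S, ¬ IsMinor H.2 A.1}

/-- the ball of radius `r` about the root of `A` is rooted-isomorphic to `H` -/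
def BallIso (r : ℕ) (A H : RG) : Prop :=
  ∃ f : A.2.1.induce {v | A.2.1.edist A.2.2 v ≤ r} ≃g H.2.1, f ⟨A.2.2, by simp⟩ = H.2.2

/-- labelled model: probability that the `r`-ball is in the class `H` -/
noncomputable def pLab (S : Set (Σ m : ℕ, SimpleGraph (Fin m))) (n r : ℕ) (H : Quotient iso) : ℝ :=
  ({A ∈ Ex S n | BallIso r ⟨n, A⟩ H.out}.ncard : ℝ) / (Ex S n).ncard

/-- the rooted-isomorphism classes with `n` vertices -/
def Cl (S : Set (Σ m : ℕ, SimpleGraph (Fin m))) (n : ℕ) : Set (Quotient iso) :=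
  (fun A => ⟦⟨n, A⟩⟧) '' Ex S n

/-- unlabelled model: probability that the `r`-ball is in the class `H` -/
noncomputable def pUnl (S : Set (Σ m : ℕ, SimpleGraph (Fin m))) (n r : ℕ) (H : Quotient iso) : ℝ :=
  ({q ∈ Cl S n | BallIso r q.out H.out}.ncard : ℝ) / (Cl S n).ncard

/-- weak local convergence: ball probabilities converge, and the limits sum to `1` -/
def Conv (P : ℕ → ℕ → Quotient iso → ℝ) : Prop :=
  ∃ l : ℕ → Quotient iso → ℝ, (∀ r H, Tendsto (fun n => P n r H) atTop (𝓝 (l r H))) ∧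
    ∀ r, HasSum (l r) 1

lemma not_conv {P : ℕ → ℕ → Quotient iso → ℝ} (h : ∀ n H, H.out.1 < n → P n 2 H = 0) :
    ¬ Conv P := by
  rintro ⟨l, h1, h2⟩
  have : l 2 = fun _ => 0 := funext fun H => tendsto_nhds_unique (h1 2 H)
    (tendsto_const_nhds.congr' ((eventually_gt_atTop H.out.1).mono fun n hn => (h n H hn).symm))
  exact one_ne_zero ((this ▸ h2 2).unique hasSum_zero)

lemma diam {V : Type} {G : SimpleGraph V} (hG : G.Connected) (h : ¬ IsMinor (pathGraph 4) G)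
    (o v : V) : G.edist o v ≤ (2 : ℕ) := by
  obtain ⟨p, hp, hl⟩ := hG.exists_path_of_dist o v
  by_contra hc
  have h3 : 2 < p.length := by
    by_contra h3
    exact hc (p.edist_le.trans (by exact_mod_cast not_lt.1 h3))
  refine h ⟨fun x => {p.getVert x}, fun x => ?_, fun x y hxy => ?_, fun x y hxy => ?_⟩
  · exact .of_subsingleton
  · rw [Set.disjoint_singleton]
    exact fun he => hxy (Fin.ext (hp.getVert_injOn (by simp; omega) (by simp; omega) he))
  · refine ⟨_, rfl, _, rfl, ?_⟩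
    rcases pathGraph_adj.1 hxy with h | h <;> rw [← h]
    · exact p.adj_getVert_succ (by omega)
    · exact (p.adj_getVert_succ (by omega)).symm

lemma card_eq {A H : RG} (h : ∀ v, A.2.1.edist A.2.2 v ≤ (2 : ℕ)) (hb : BallIso 2 A H) :
    A.1 = H.1 := by
  obtain ⟨f, -⟩ := hb
  have := Nat.card_congr f.toEquiv
  rwa [Set.eq_univ_of_forall (s := {v | A.2.1.edist A.2.2 v ≤ (2 : ℕ)}) h, Nat.card_univ,
    Nat.card_fin, Nat.card_fin] at this

theorem result : ∃ S : Set (Σ m : ℕ, SimpleGraph (Fin m)), S.Finite ∧ S.Nonempty ∧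
    (∀ H ∈ S, H.2.Connected) ∧ (∀ n, 1 ≤ n → (Ex S n).Nonempty) ∧
    ¬ Conv (pLab S) ∧ ¬ Conv (pUnl S) := by
  refine ⟨{⟨4, pathGraph 4⟩}, Set.finite_singleton _, Set.singleton_nonempty _, ?_, ?_,
    not_conv fun n H hn => ?_, not_conv fun n H hn => ?_⟩
  · rintro _ rfl
    exact pathGraph_connected 3
  · intro n hn
    obtain ⟨n, rfl⟩ : ∃ m, n = m + 1 := ⟨n - 1, by omega⟩
    refine ⟨(fromRel fun a _ => a = 0, 0), (connected_iff_exists_forall_reachable _).2
      ⟨0, fun v => ?_⟩, ?_⟩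
    · by_cases hv : 0 = v
      · exact hv ▸ .refl _
      · exact Adj.reachable (by simp [hv])
    · rintro _ rfl ⟨B, -, h1, h2⟩
      obtain ⟨a, ha, b, hb, -, hab⟩ := h2 0 1 (by simp [pathGraph_adj])
      obtain ⟨c, hc, d, hd, -, hcd⟩ := h2 2 3 (by simp [pathGraph_adj])
      rcases hab with rfl | rfl <;> rcases hcd with rfl | rfl
      · exact Set.disjoint_left.1 (h1 0 2 (by decide)) ha hc
      · exact Set.disjoint_left.1 (h1 0 3 (by decide)) ha hd
      · exact Set.disjoint_left.1 (h1 1 2 (by decide)) hb hc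
      · exact Set.disjoint_left.1 (h1 1 3 (by decide)) hb hd
  · rw [pLab, Set.eq_empty_of_forall_notMem (s := {A ∈ _ | _})]
    · simp
    · exact fun A hA => hn.ne' (card_eq (A := ⟨n, A⟩) (diam hA.1.1 (hA.1.2 _ rfl) _) hA.2)
  · rw [pUnl, Set.eq_empty_of_forall_notMem (s := {A ∈ _ | _})]
    · simp
    · rintro _ ⟨⟨A, hA, rfl⟩, hb⟩
      obtain ⟨f, -⟩ := Quotient.mk_out (s := iso) ⟨n, A⟩
      have h1 := card_eq (fun v => ?_) hb
      · have := Nat.card_congr f.toEquiv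
        rw [Nat.card_fin, Nat.card_fin] at this
        exact hn.ne' (this.symm.trans h1)
      · refine diam (f.connected_iff.2 hA.1) (fun ⟨B, h1, h2, h3⟩ => hA.2 _ rfl
          ⟨fun x => f '' B x, fun x => ?_, fun x y hxy =>
            Set.disjoint_image_of_injective f.injective (h2 x y hxy), fun x y hxy => ?_⟩) _ _
        · exact (f.induce (f.injective.injOn.bijOn_image)).connected_iff.1 (h1 x)
        · obtain ⟨u, hu, v, hv, huv⟩ := h3 x y hxy
          exact ⟨_, ⟨u, hu, rfl⟩, _, ⟨v, hv, rfl⟩, f.map_adj_iff.2 huv⟩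

end Pool.Agent.Results.MP_e761a2_pr.Stars
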